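import Pool.Agent.Helper76.TC.Goals

/-! Packet TC-NP: two non-proportional elements. -/

namespace Pool.Agent.Helper64.TC.NP

open Pool.Agent.Helper76.TC

lemma vanish (f : (Fin 2 → ℤ) →+ ℤ) (B : Set (Fin 2 → ℤ)) (h : ∀ k ∈ B, f k = 0)
    (k : Fin 2 → ℤ) (i : ℕ) (hi : 1 ≤ i) (hk : i • k ∈ AddSubgroup.closure B) : f k = 0 := by
  have h1 : AddSubgroup.closure B ≤ f.ker := by
    rw [AddSubgroup.closure_le]
    intro x hx
    exact h x hx
  have h2 : f (i • k) = 0 := h1 hk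
  rw [map_nsmul, nsmul_eq_mul] at h2
  rcases mul_eq_zero.1 h2 with h3 | h3
  · have : i = 0 := by exact_mod_cast h3
    omega
  · exact h3

/-- the determinant with a fixed first vector -/
def detL (k : Fin 2 → ℤ) : (Fin 2 → ℤ) →+ ℤ where
  toFun k' := k 0 * k' 1 - k 1 * k' 0
  map_zero' := by simp
  map_add' x y := by simp only [Pi.add_apply]; ring

theorem t : S_NP := by
  intro B B' hB hB'
  by_contra hc
  push Not at hc
  have h1 : ∀ k ∈ B, ∀ k' : Fin 2 → ℤ, k 0 * k' 1 - k 1 * k' 0 = 0 := by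
    intro k hk k'
    obtain ⟨i, hi, hik⟩ := hB' k'
    exact vanish (detL k) B' (fun x hx => hc k hk x hx) k' i hi hik
  have h2 : ∀ k ∈ B, k 0 = 0 := by
    intro k hk
    have := h1 k hk ![0, 1]
    simpa using this
  obtain ⟨i, hi, hik⟩ := hB ![1, 0]
  have h3 := vanish (Pi.evalAddMonoidHom (fun _ : Fin 2 => ℤ) 0) B (fun x hx => h2 x hx) ![1, 0] i hi hik
  simp at h3

end Pool.Agent.Helper64.TC.NP
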